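import Pool.Agent.K7.H47.DM.Stm4

set_option autoImplicit false

open Polynomial

namespace Pool.Agent.K7.H74.D4

open Pool.Agent.K7.H47.DM4

theorem Wt_eq {ι : Type} [Fintype ι] (t cl : ι → ℕ) (σ : Equiv.Perm ι) : Wt t cl σ = ∑ r, cl (σ.symm r) * t r := by
  unfold Wt
  rw [← Equiv.sum_comp σ (fun r => cl (σ.symm r) * t r)]
  simp

theorem lead (hU : StU) (hB : StBlk) : StK := by
  classical
  intro ι _ _ t j cl ht hinj hex
  obtain ⟨σ, hσ, hmax⟩ : ∃ σ : Equiv.Perm ι, Feas t j σ ∧ ∀ τ, Feas t j τ → Wt t cl τ ≤ Wt t cl σ := by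
    obtain ⟨σ₀, hσ₀⟩ := hex
    have hne : ((Finset.univ : Finset (Equiv.Perm ι)).filter (Feas t j)).Nonempty :=
      ⟨σ₀, Finset.mem_filter.2 ⟨Finset.mem_univ _, hσ₀⟩⟩
    obtain ⟨σ, h1, h2⟩ := Finset.exists_max_image _ (Wt t cl) hne
    exact ⟨σ, (Finset.mem_filter.1 h1).2, fun τ hτ => h2 τ (Finset.mem_filter.2 ⟨Finset.mem_univ _, hτ⟩)⟩
  have hb := hB ι t j cl ht hinj σ hσ
  intro h0
  apply hb
  have hc : (Matrix.of fun r c => (C (((t r).choose (j c) : ℕ) : ℚ) * X ^ (cl c * t r) : ℚ[X])).det.coeff (Wt t cl σ) =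
      (Matrix.of fun r c => if cl (σ.symm r) = cl c then (((t r).choose (j c) : ℕ) : ℚ) else 0).det := by
    rw [Matrix.det_apply, Matrix.det_apply, Polynomial.finset_sum_coeff]
    refine Finset.sum_congr rfl fun τ _ => ?_
    rw [Polynomial.coeff_smul]
    congr 1
    have e1 : ∏ i, (Matrix.of fun r c => (C (((t r).choose (j c) : ℕ) : ℚ) * X ^ (cl c * t r) : ℚ[X])) (τ i) i =
        C (∏ i, (((t (τ i)).choose (j i) : ℕ) : ℚ)) * X ^ (Wt t cl τ) := by
      simp only [Matrix.of_apply]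
      rw [Finset.prod_mul_distrib, Finset.prod_pow_eq_pow_sum, map_prod]
      rfl
    rw [e1, coeff_C_mul_X_pow]
    simp only [Matrix.of_apply]
    by_cases hF : Feas t j τ
    · by_cases hW : Wt t cl σ = Wt t cl τ
      · rw [if_pos hW]
        have h3 := hU ι t j cl ht σ τ hσ hF hmax (fun τ' hτ' => by rw [← hW]; exact hmax τ' hτ')
        refine Finset.prod_congr rfl fun i _ => ?_
        have h4 := h3 (τ i)
        rw [Equiv.symm_apply_apply] at h4
        rw [if_pos h4]
      · rw [if_neg hW]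
        have h5 : ∃ i, cl (σ.symm (τ i)) ≠ cl i := by
          by_contra hcon
          push Not at hcon
          apply hW
          rw [Wt_eq]
          unfold Wt
          rw [← Equiv.sum_comp τ (fun r => cl (σ.symm r) * t r)]
          exact Finset.sum_congr rfl fun i _ => by rw [hcon i]
        obtain ⟨i, hi⟩ := h5
        symm
        apply Finset.prod_eq_zero (Finset.mem_univ i)
        rw [if_neg hi]
    · have h5 : ∃ i, t (τ i) < j i := by
        by_contra hcon
        push Not at hcon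
        exact hF hcon
      obtain ⟨i, hi⟩ := h5
      have h6 : (((t (τ i)).choose (j i) : ℕ) : ℚ) = 0 := by
        rw [Nat.choose_eq_zero_of_lt hi, Nat.cast_zero]
      have h7 : ∏ i, (((t (τ i)).choose (j i) : ℕ) : ℚ) = 0 := Finset.prod_eq_zero (Finset.mem_univ i) h6
      rw [h7, ite_self]
      symm
      apply Finset.prod_eq_zero (Finset.mem_univ i)
      rw [h6, ite_self]
  rw [h0, coeff_zero] at hc
  exact hc.symm

end Pool.Agent.K7.H74.D4
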